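import Pool.Agent.Helper51.AJ.St
import Pool.Agent.Helper51.AJ.Basic

/-!
# Project AJ: the structure theorem, case analysis (module MTH)
-/

set_option autoImplicit false

namespace Pool.Agent.Helper32.AJ

open Pool.Agent.Helper51.AJ

variable {V : Type}

private theorem sing_of_sub {B : SimpleGraph V} {S : Set V} (h : Con B S) (hs : S.Subsingleton) :
    ∃ w, S = {w} := by
  obtain ⟨w, hw⟩ := con_nonempty h
  exact ⟨w, hs.eq_singleton_of_mem hw⟩

private theorem nf_adj {B : SimpleGraph V} {u v : V} {W : Fin 3 → Set V} (hN : NF B u v W) {i : Fin 3} {w : V}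
    (h : W i = {w}) : B.Adj u w ∧ B.Adj v w := by
  constructor
  · obtain ⟨a, ha, b, hb, hab⟩ := hN.au i
    rw [h] at hb
    rwa [ha, hb] at hab
  · obtain ⟨a, ha, b, hb, hab⟩ := hN.av i
    rw [h] at hb
    rwa [ha, hb] at hab

private theorem mod_x3 {B : SimpleGraph V} {u v : V} {W : Fin 3 → Set V} (hN : NF B u v W) (huv : B.Adj u v) :
    IsMinor X3 B := by
  apply isMinor_gr ![{u}, {v}, W 0, W 1, W 2]
  · intro i
    fin_cases i
    · exact con_singleton B u
    · exact con_singleton B v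
    · exact hN.con 0
    · exact hN.con 1
    · exact hN.con 2
  · intro i j hij
    have huW : ∀ k, Disjoint {u} (W k) := fun k => Set.disjoint_singleton_left.2 (hN.nu k)
    have hvW : ∀ k, Disjoint {v} (W k) := fun k => Set.disjoint_singleton_left.2 (hN.nv k)
    fin_cases i <;> fin_cases j <;> first | exact absurd hij (by decide) | skip
    · exact Set.disjoint_singleton.2 hN.ne
    · exact huW 0
    · exact huW 1
    · exact huW 2
    · exact hvW 0
    · exact hvW 1
    · exact hvW 2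
    · exact hN.dis 0 1 (by decide)
    · exact hN.dis 0 2 (by decide)
    · exact hN.dis 1 2 (by decide)
  · intro p hp hp1 hp2
    simp only [List.mem_cons, List.not_mem_nil, or_false] at hp
    rcases hp with rfl | rfl | rfl | rfl | rfl | rfl | rfl
    · exact ⟨u, rfl, v, rfl, huv⟩
    · exact hN.au 0
    · exact hN.au 1
    · exact hN.au 2
    · exact hN.av 0
    · exact hN.av 1
    · exact hN.av 2

private theorem mod_x1 {B : SimpleGraph V} {u v w x y : V} {W : Fin 3 → Set V} (hN : NF B u v W)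
    (h0 : W 0 = {w}) (h1 : W 1 = {x}) (h2 : W 2 = {y}) (hwx : B.Adj w x) (hwy : B.Adj w y) (hxy : B.Adj x y) :
    IsMinor X1 B := by
  have a0 := nf_adj hN h0
  have a1 := nf_adj hN h1
  have a2 := nf_adj hN h2
  apply isMinor_gr ![{u}, {w}, {x}, {y}, {v}]
  · intro i
    fin_cases i <;> exact con_singleton B _
  · intro i j hij
    fin_cases i <;> fin_cases j <;> first | exact absurd hij (by decide) | skip
    · exact Set.disjoint_singleton.2 a0.1.ne
    · exact Set.disjoint_singleton.2 a1.1.ne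
    · exact Set.disjoint_singleton.2 a2.1.ne
    · exact Set.disjoint_singleton.2 hN.ne
    · exact Set.disjoint_singleton.2 hwx.ne
    · exact Set.disjoint_singleton.2 hwy.ne
    · exact Set.disjoint_singleton.2 a0.2.ne'
    · exact Set.disjoint_singleton.2 hxy.ne
    · exact Set.disjoint_singleton.2 a1.2.ne'
    · exact Set.disjoint_singleton.2 a2.2.ne'
  · intro p hp hp1 hp2
    simp only [List.mem_cons, List.not_mem_nil, or_false] at hp
    rcases hp with rfl | rfl | rfl | rfl | rfl | rfl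
    · exact ⟨u, rfl, w, rfl, a0.1⟩
    · exact ⟨u, rfl, x, rfl, a1.1⟩
    · exact ⟨u, rfl, y, rfl, a2.1⟩
    · exact ⟨w, rfl, x, rfl, hwx⟩
    · exact ⟨w, rfl, y, rfl, hwy⟩
    · exact ⟨x, rfl, y, rfl, hxy⟩

private theorem stepB (h4 : StEdg) (h6 : StBbb) [Finite V] (B : SimpleGraph V) (n1 : ¬ IsMinor X1 B)
    (n3 : ¬ IsMinor X3 B) (n4 : ¬ IsMinor X4 B) (u v w x : V) (W : Fin 3 → Set V) (hN : NF B u v W)
    (huv : ¬ B.Adj u v) (e0 : W 0 = {w}) (e1 : W 1 = {x}) (hxy : ∃ y ∈ W 2, B.Adj x y) :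
    ∃ w : V, Cyc (B.induce {w}ᶜ) := by
  by_cases hw : ∃ y ∈ W 2, B.Adj w y
  · by_cases hs : (W 2).Subsingleton
    · obtain ⟨y, e2⟩ := sing_of_sub (hN.con 2) hs
      have hxy' : B.Adj x y := by
        obtain ⟨y', hy', hx⟩ := hxy
        rw [e2] at hy'
        rwa [hy'] at hx
      have hwy' : B.Adj w y := by
        obtain ⟨y', hy', hx⟩ := hw
        rw [e2] at hy'
        rwa [hy'] at hx
      by_cases hwx : B.Adj w x
      · exact absurd (mod_x1 hN e0 e1 e2 hwx hwy' hxy') n1
      · refine ⟨y, h4 V B u v y _ (hN.perm (Equiv.swap 0 2)) ?_ huv ?_⟩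
        · show W (Equiv.swap 0 2 0) = {y}
          rw [Equiv.swap_apply_left, e2]
        · intro a ha b hb hab
          have ha' : a ∈ W (Equiv.swap 0 2 1) := ha
          have hb' : b ∈ W (Equiv.swap 0 2 2) := hb
          rw [Equiv.swap_apply_right, e0] at hb'
          rw [Equiv.swap_apply_of_ne_of_ne (by decide) (by decide), e1] at ha'
          rw [ha', hb'] at hab
          exact hwx hab.symm
    · rcases h6 V B u v w x W hN e0 e1 hxy hw hs with h | h
      · exact absurd h n4
      · exact absurd h n3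
  · push Not at hw
    refine ⟨x, h4 V B u v x _ (hN.perm (Equiv.swap 0 1)) ?_ huv ?_⟩
    · show W (Equiv.swap 0 1 0) = {x}
      rw [Equiv.swap_apply_left, e1]
    · intro a ha b hb
      have ha' : a ∈ W (Equiv.swap 0 1 1) := ha
      have hb' : b ∈ W (Equiv.swap 0 1 2) := hb
      rw [Equiv.swap_apply_right, e0] at ha'
      rw [Equiv.swap_apply_of_ne_of_ne (by decide) (by decide)] at hb'
      rw [ha']
      exact hw b hb'

private theorem stepA (h4 : StEdg) (h5 : StBba) (h6 : StBbb) [Finite V] (B : SimpleGraph V)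
    (n1 : ¬ IsMinor X1 B) (n3 : ¬ IsMinor X3 B) (n4 : ¬ IsMinor X4 B) (n5 : ¬ IsMinor X5 B) (u v w : V)
    (W : Fin 3 → Set V) (hN : NF B u v W) (huv : ¬ B.Adj u v) (e0 : W 0 = {w}) :
    ∃ w : V, Cyc (B.induce {w}ᶜ) := by
  by_cases he : ∃ x ∈ W 1, ∃ y ∈ W 2, B.Adj x y
  · by_cases hs1 : (W 1).Subsingleton
    · obtain ⟨x, e1⟩ := sing_of_sub (hN.con 1) hs1
      apply stepB h4 h6 B n1 n3 n4 u v w x W hN huv e0 e1
      obtain ⟨x', hx', y, hy, hxy⟩ := he
      rw [e1] at hx'
      rw [hx'] at hxy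
      exact ⟨y, hy, hxy⟩
    · by_cases hs2 : (W 2).Subsingleton
      · obtain ⟨y, e2⟩ := sing_of_sub (hN.con 2) hs2
        apply stepB h4 h6 B n1 n3 n4 u v w y _ (hN.perm (Equiv.swap 1 2)) huv
        · show W (Equiv.swap 1 2 0) = {w}
          rw [Equiv.swap_apply_of_ne_of_ne (by decide) (by decide), e0]
        · show W (Equiv.swap 1 2 1) = {y}
          rw [Equiv.swap_apply_left, e2]
        · obtain ⟨x, hx, y', hy', hxy⟩ := he
          rw [e2] at hy'
          rw [hy'] at hxy
          refine ⟨x, ?_, hxy.symm⟩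
          show x ∈ W (Equiv.swap 1 2 2)
          rw [Equiv.swap_apply_right]
          exact hx
      · rcases h5 V B u v w W hN e0 he hs1 hs2 with h | h
        · exact absurd h n5
        · exact absurd h n3
  · push Not at he
    exact ⟨w, h4 V B u v w W hN e0 huv he⟩

theorem hMTH (h1 : StK4c) (h2 : StNfo) (h3 : StThe) (h4 : StEdg) (h5 : StBba) (h6 : StBbb) : StMth := by
  intro V _ B hor n1 n2 n3 n4 n5 n6
  by_cases hK : IsMinor K23 B
  · obtain ⟨u, v, W, hN⟩ := h2 V B hK n2
    have huv : ¬ B.Adj u v := fun h => n3 (mod_x3 hN h)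
    have hex : ∃ i, (W i).Subsingleton := by
      by_contra hno
      exact n6 (h3 V B u v W hN fun i h => hno ⟨i, h⟩)
    obtain ⟨i, hi⟩ := hex
    obtain ⟨w, ew⟩ := sing_of_sub (hN.con i) hi
    apply stepA h4 h5 h6 B n1 n3 n4 n5 u v w _ (hN.perm (Equiv.swap 0 i)) huv
    show W (Equiv.swap 0 i 0) = {w}
    rw [Equiv.swap_apply_left, ew]
  · rcases hor with h | h
    · exact h1 V B h hK n1
    · exact absurd h hK

end Pool.Agent.Helper32.AJ
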